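import Pool.Agent.Lib.TVf.SpecVf

/-!
MP_00e23e_nt, directory Lib/TVf, module Fcs (copy of TM/Ucs of helper68 with the factor f): Cauchy's inequality over (a, m, r) in the
trilinear form.
-/

namespace Pool.Agent.Lib.TVf

open Finset Pool.Agent.Lib.EH3 Pool.Agent.Lib.TB Pool.Agent.Lib.TN Pool.Agent.Lib.TM Pool.Agent.Lib.TV
  Pool.Agent.Results.MP_00e23e_nt

/-- one term of the inner sum -/
private noncomputable def Fcs_A (f : ℕ) (l : ℂ) (β : ℕ → ℕ → ℂ) (θ : ℤ) (τ : ℝ) (m r h s : ℕ) : ℂ :=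
  if m.Coprime (r * s) then l * β r s * eF f ((h : ℤ) * θ) ((h : ℝ) * τ) m (r * s) else 0

/-- the inner sum -/
private noncomputable def Fcs_X (S H f : ℕ) (lam : ℕ → ℂ) (B : Finset ℤ) (β : ℤ → ℕ → ℕ → ℂ) (θ : ℤ → ℤ) (τ : ℝ) (m r : ℕ) : ℂ :=
  ∑ b ∈ B, ∑ s ∈ Ico S (2 * S), ∑ h ∈ Icc 1 H, Fcs_A f (lam h) (β b) (θ b) τ m r h s

private theorem Fcs_form (P P2 S H f : ℕ) (lam : ℕ → ℂ) (B : Finset ℤ) (α : ℕ → ℂ) (β : ℤ → ℕ → ℕ → ℂ) (θ : ℤ → ℤ) (τ : ℝ) :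
    ∑ b ∈ B, TfIf P P2 S H f lam α (β b) (θ b) τ =
      ∑ m ∈ Ioc P (3 * P), ∑ r ∈ Icc 1 (3 * P2 / S), α m * Fcs_X S H f lam B β θ τ m r := by
  have h1 : ∀ b ∈ B, TfIf P P2 S H f lam α (β b) (θ b) τ =
      ∑ m ∈ Ioc P (3 * P), ∑ r ∈ Icc 1 (3 * P2 / S),
        α m * ∑ s ∈ Ico S (2 * S), ∑ h ∈ Icc 1 H, Fcs_A f (lam h) (β b) (θ b) τ m r h s := by
    intro b _
    unfold TfIf
    rw [Finset.sum_congr rfl fun h _ => Finset.mul_sum _ _ _, Finset.sum_comm]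
    refine Finset.sum_congr rfl fun m _ => ?_
    rw [Finset.sum_congr rfl fun h _ => Finset.mul_sum _ _ _, Finset.sum_comm]
    refine Finset.sum_congr rfl fun r _ => ?_
    rw [Finset.sum_comm (s := Ico S (2 * S)) (t := Icc 1 H), Finset.mul_sum]
    refine Finset.sum_congr rfl fun h _ => ?_
    rw [Finset.mul_sum, Finset.mul_sum, Finset.sum_filter]
    refine Finset.sum_congr rfl fun s _ => ?_
    unfold Fcs_A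
    split_ifs
    · ring
    · simp
  rw [Finset.sum_congr rfl h1, Finset.sum_comm]
  refine Finset.sum_congr rfl fun m _ => ?_
  rw [Finset.sum_comm]
  refine Finset.sum_congr rfl fun r _ => ?_
  unfold Fcs_X
  rw [Finset.mul_sum]

private theorem Fcs_sq (S H f : ℕ) (lam : ℕ → ℂ) (B : Finset ℤ) (β : ℤ → ℕ → ℕ → ℂ) (θ : ℤ → ℤ) (τ : ℝ) (m r : ℕ) :
    ((‖Fcs_X S H f lam B β θ τ m r‖ ^ 2 : ℝ) : ℂ) =
      ∑ b1 ∈ B, ∑ b2 ∈ B, ∑ s1 ∈ Ico S (2 * S), ∑ s2 ∈ Ico S (2 * S), ∑ h1 ∈ Icc 1 H, ∑ h2 ∈ Icc 1 H,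
        Fcs_A f (lam h1) (β b1) (θ b1) τ m r h1 s1 * (starRingEnd ℂ) (Fcs_A f (lam h2) (β b2) (θ b2) τ m r h2 s2) := by
  have h1 : ((‖Fcs_X S H f lam B β θ τ m r‖ ^ 2 : ℝ) : ℂ) =
      Fcs_X S H f lam B β θ τ m r * (starRingEnd ℂ) (Fcs_X S H f lam B β θ τ m r) := by
    rw [Complex.mul_conj']
    push_cast
    rfl
  rw [h1]
  unfold Fcs_X
  rw [map_sum, Finset.sum_mul_sum]
  refine Finset.sum_congr rfl fun b1 _ => ?_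
  refine Finset.sum_congr rfl fun b2 _ => ?_
  rw [map_sum, Finset.sum_mul_sum]
  refine Finset.sum_congr rfl fun s1 _ => ?_
  refine Finset.sum_congr rfl fun s2 _ => ?_
  rw [map_sum, Finset.sum_mul_sum]

private theorem Fcs_prod (P f : ℕ) (l1 l2 : ℂ) (β1 β2 : ℕ → ℕ → ℂ) (θ1 θ2 : ℤ) (τ : ℝ) (r s1 s2 h1 h2 : ℕ) :
    ∑ m ∈ Ioc P (3 * P), Fcs_A f l1 β1 θ1 τ m r h1 s1 * (starRingEnd ℂ) (Fcs_A f l2 β2 θ2 τ m r h2 s2) =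
      l1 * (starRingEnd ℂ) l2 * (β1 r s1 * (starRingEnd ℂ) (β2 r s2)) * ImF P f θ1 θ2 τ r s1 s2 h1 h2 := by
  unfold ImF
  rw [Finset.mul_sum, Finset.sum_filter]
  refine Finset.sum_congr rfl fun m _ => ?_
  unfold Fcs_A
  by_cases c1 : m.Coprime (r * s1)
  · by_cases c2 : m.Coprime (r * s2)
    · rw [if_pos c1, if_pos c2, if_pos ⟨c1, c2⟩, map_mul, map_mul]
      ring
    · have hc : ¬ (m.Coprime (r * s1) ∧ m.Coprime (r * s2)) := fun h => c2 h.2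
      rw [if_neg c2, if_neg hc, map_zero, mul_zero]
  · have hc : ¬ (m.Coprime (r * s1) ∧ m.Coprime (r * s2)) := fun h => c1 h.1
    rw [if_neg c1, if_neg hc, zero_mul]

private theorem Fcs_inner (P S H f : ℕ) (lam : ℕ → ℂ) (B : Finset ℤ) (β : ℤ → ℕ → ℕ → ℂ) (θ : ℤ → ℤ) (τ : ℝ) (r : ℕ)
    (hlam : ∀ h, ‖lam h‖ ≤ 1) :
    ∑ m ∈ Ioc P (3 * P), ‖Fcs_X S H f lam B β θ τ m r‖ ^ 2 ≤
      ∑ b1 ∈ B, ∑ b2 ∈ B, ∑ s1 ∈ Ico S (2 * S), ∑ s2 ∈ Ico S (2 * S), ∑ h1 ∈ Icc 1 H, ∑ h2 ∈ Icc 1 H,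
        ‖β b1 r s1‖ * ‖β b2 r s2‖ * ‖ImF P f (θ b1) (θ b2) τ r s1 s2 h1 h2‖ := by
  have key : ((∑ m ∈ Ioc P (3 * P), ‖Fcs_X S H f lam B β θ τ m r‖ ^ 2 : ℝ) : ℂ) =
      ∑ b1 ∈ B, ∑ b2 ∈ B, ∑ s1 ∈ Ico S (2 * S), ∑ s2 ∈ Ico S (2 * S), ∑ h1 ∈ Icc 1 H, ∑ h2 ∈ Icc 1 H,
        lam h1 * (starRingEnd ℂ) (lam h2) * (β b1 r s1 * (starRingEnd ℂ) (β b2 r s2)) * ImF P f (θ b1) (θ b2) τ r s1 s2 h1 h2 := by
    rw [Complex.ofReal_sum, Finset.sum_congr rfl (fun m _ => Fcs_sq S H f lam B β θ τ m r), Finset.sum_comm]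
    refine Finset.sum_congr rfl fun b1 _ => ?_
    rw [Finset.sum_comm]
    refine Finset.sum_congr rfl fun b2 _ => ?_
    rw [Finset.sum_comm]
    refine Finset.sum_congr rfl fun s1 _ => ?_
    rw [Finset.sum_comm]
    refine Finset.sum_congr rfl fun s2 _ => ?_
    rw [Finset.sum_comm]
    refine Finset.sum_congr rfl fun h1 _ => ?_
    rw [Finset.sum_comm]
    refine Finset.sum_congr rfl fun h2 _ => ?_
    exact Fcs_prod P f (lam h1) (lam h2) (β b1) (β b2) (θ b1) (θ b2) τ r s1 s2 h1 h2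
  have hnn : 0 ≤ ∑ m ∈ Ioc P (3 * P), ‖Fcs_X S H f lam B β θ τ m r‖ ^ 2 := Finset.sum_nonneg fun m _ => by positivity
  have h0 : ∑ m ∈ Ioc P (3 * P), ‖Fcs_X S H f lam B β θ τ m r‖ ^ 2 =
      ‖((∑ m ∈ Ioc P (3 * P), ‖Fcs_X S H f lam B β θ τ m r‖ ^ 2 : ℝ) : ℂ)‖ := by
    rw [Complex.norm_real, Real.norm_of_nonneg hnn]
  rw [h0, key]
  refine (norm_sum_le _ _).trans (Finset.sum_le_sum fun b1 _ => ?_)
  refine (norm_sum_le _ _).trans (Finset.sum_le_sum fun b2 _ => ?_)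
  refine (norm_sum_le _ _).trans (Finset.sum_le_sum fun s1 _ => ?_)
  refine (norm_sum_le _ _).trans (Finset.sum_le_sum fun s2 _ => ?_)
  refine (norm_sum_le _ _).trans (Finset.sum_le_sum fun h1 _ => ?_)
  refine (norm_sum_le _ _).trans (Finset.sum_le_sum fun h2 _ => ?_)
  rw [norm_mul, norm_mul, norm_mul, norm_mul, RCLike.norm_conj, RCLike.norm_conj]
  have g1 : ‖lam h1‖ * ‖lam h2‖ ≤ 1 := mul_le_one₀ (hlam h1) (norm_nonneg _) (hlam h2)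
  have g2 : 0 ≤ ‖β b1 r s1‖ * ‖β b2 r s2‖ := by positivity
  refine mul_le_mul_of_nonneg_right ?_ (norm_nonneg _)
  exact mul_le_of_le_one_left g2 g1

theorem tFcs : FcsStmt := by
  intro P P2 S H f K A B lam α β θ τ hlam hα hK
  obtain ⟨X, hX⟩ : ∃ X : ℤ → ℕ → ℕ → ℂ, X = fun a m r => Fcs_X S H f (lam a) (B a) β (θ a) (τ a) m r := ⟨_, rfl⟩
  obtain ⟨I, hI⟩ : ∃ I, I = A ×ˢ ((Ioc P (3 * P)) ×ˢ (Icc 1 (3 * P2 / S))) := ⟨_, rfl⟩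
  have h1 : TfMf P P2 S H f A B lam α β θ τ = ∑ x ∈ I, α x.1 x.2.1 * X x.1 x.2.1 x.2.2 := by
    unfold TfMf
    rw [hI, Finset.sum_product]
    refine Finset.sum_congr rfl fun a _ => ?_
    rw [Finset.sum_product, Fcs_form, hX]
  have h2 : ‖TfMf P P2 S H f A B lam α β θ τ‖ ≤ ∑ x ∈ I, ‖α x.1 x.2.1‖ * ‖X x.1 x.2.1 x.2.2‖ := by
    rw [h1]
    refine (norm_sum_le _ _).trans (le_of_eq ?_)
    exact Finset.sum_congr rfl fun x _ => norm_mul _ _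
  have h3 : ‖TfMf P P2 S H f A B lam α β θ τ‖ ^ 2 ≤
      (∑ x ∈ I, ‖α x.1 x.2.1‖ ^ 2) * ∑ x ∈ I, ‖X x.1 x.2.1 x.2.2‖ ^ 2 :=
    (pow_le_pow_left₀ (norm_nonneg _) h2 2).trans (Finset.sum_mul_sq_le_sq_mul_sq _ _ _)
  have h4 : ∑ x ∈ I, ‖α x.1 x.2.1‖ ^ 2 ≤ K * (2 * (P : ℝ) * ((3 * P2 / S : ℕ) : ℝ)) := by
    rw [hI, Finset.sum_product_right]
    have e1 : ∀ y ∈ (Ioc P (3 * P)) ×ˢ (Icc 1 (3 * P2 / S)), ∑ a ∈ A, ‖α a y.1‖ ^ 2 ≤ K := by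
      intro y _
      refine (Finset.sum_le_sum fun a _ => ?_).trans (hK y.1)
      have := hα a y.1
      nlinarith [norm_nonneg (α a y.1)]
    refine (Finset.sum_le_sum e1).trans (le_of_eq ?_)
    rw [Finset.sum_const, Finset.card_product, Nat.card_Ioc, Nat.card_Icc, nsmul_eq_mul]
    have e2 : 3 * P - P = 2 * P := by omega
    have e3 : 3 * P2 / S + 1 - 1 = 3 * P2 / S := Nat.add_sub_cancel _ _
    rw [e2, e3]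
    push_cast
    ring
  have h5 : ∑ x ∈ I, ‖X x.1 x.2.1 x.2.2‖ ^ 2 ≤
      ∑ a ∈ A, ∑ r ∈ Icc 1 (3 * P2 / S), ∑ b1 ∈ B a, ∑ b2 ∈ B a, ∑ s1 ∈ Ico S (2 * S), ∑ s2 ∈ Ico S (2 * S),
      ∑ h1 ∈ Icc 1 H, ∑ h2 ∈ Icc 1 H,
        ‖β b1 r s1‖ * ‖β b2 r s2‖ * ‖ImF P f (θ a b1) (θ a b2) (τ a) r s1 s2 h1 h2‖ := by
    rw [hI, Finset.sum_product]
    refine Finset.sum_le_sum fun a _ => ?_
    rw [Finset.sum_product_right, hX]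
    exact Finset.sum_le_sum fun r _ => Fcs_inner P S H f (lam a) (B a) β (θ a) (τ a) r (hlam a)
  have h6 : 0 ≤ ∑ x ∈ I, ‖α x.1 x.2.1‖ ^ 2 := Finset.sum_nonneg fun x _ => by positivity
  have h7 : 0 ≤ ∑ x ∈ I, ‖X x.1 x.2.1 x.2.2‖ ^ 2 := Finset.sum_nonneg fun x _ => by positivity
  exact h3.trans (mul_le_mul h4 h5 h7 (h6.trans h4))

end Pool.Agent.Lib.TVf
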