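import Pool.Agent.Lib.TVf.SpecVf
import Pool.Agent.Lib.TB.Psm
import Pool.Agent.Lib.TB.Basic

/-! MP_00e23e_nt, Lib/TVf: module Fim (the inner sum with the factor f; TN/Tif with VsqStmt). -/

namespace Pool.Agent.Lib.TVf

open Finset Pool.Agent.Lib.EH3 Pool.Agent.Lib.TB Pool.Agent.Lib.TN Pool.Agent.Lib.TM Pool.Agent.Lib.TV
  Pool.Agent.Results.MP_00e23e_nt

private lemma Fim_ee (x y : ℝ) : ‖ee x - ee y‖ ≤ 7 * |x - y| := by
  have h1 : ee x - ee y = ee y * (ee (x - y) - 1) := by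
    rw [mul_sub, ← ee_add, mul_one]
    congr 2
    ring
  rw [h1, norm_mul, norm_ee, one_mul]
  have h2 : ‖ee (x - y) - 1‖ ≤ ‖2 * Real.pi * (x - y)‖ := by
    unfold ee
    exact Real.norm_exp_I_mul_ofReal_sub_one_le
  refine h2.trans ?_
  rw [Real.norm_eq_abs, abs_mul, abs_of_pos Real.two_pi_pos]
  refine mul_le_mul_of_nonneg_right ?_ (abs_nonneg _)
  have := Real.pi_lt_d2
  linarith

private lemma Fim_sq (a b : ℕ) (ha : Squarefree a) (hb : Squarefree b) : Squarefree (Nat.lcm a b) := by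
  have ha0 : a ≠ 0 := ha.ne_zero
  have hb0 : b ≠ 0 := hb.ne_zero
  rw [Nat.squarefree_iff_factorization_le_one (Nat.lcm_ne_zero ha0 hb0)]
  intro p
  rw [Nat.factorization_lcm ha0 hb0]
  have h1 := (Nat.squarefree_iff_factorization_le_one ha0).1 ha p
  have h2 := (Nat.squarefree_iff_factorization_le_one hb0).1 hb p
  rw [Finsupp.sup_apply]
  exact sup_le h1 h2

private lemma Fim_tel (K : ℝ) (a b : ℕ) (h : a ≤ b) :
    ∑ t ∈ Ico a b, K * (1 / (t : ℝ) - 1 / ((t : ℝ) + 1)) = K * (1 / (a : ℝ) - 1 / (b : ℝ)) := by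
  induction b, h using Nat.le_induction with
  | base => simp
  | succ b hb ih =>
    rw [Finset.sum_Ico_succ_top hb, ih]
    push_cast
    ring

private lemma Fim_gcd (F q : ℕ) (x : ℤ) (hF : F.Coprime q) (hq : 1 ≤ q) :
    Int.gcd (x * (iv F q : ℤ)) q = Int.gcd x q := by
  have h1 : iv F q * F ≡ 1 [MOD q] := iv_mul hF hq
  have h2 : (iv F q).Coprime q := by
    have h3 : (iv F q * F).Coprime q := by
      have := h1.gcd_eq
      rw [Nat.coprime_iff_gcd_eq_one, this]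
      simp
    exact Nat.Coprime.of_dvd_left (Dvd.intro _ rfl) h3
  have h3 : IsCoprime ((iv F q : ℕ) : ℤ) ((q : ℕ) : ℤ) := Nat.isCoprime_iff_coprime.mpr h2
  rw [Int.gcd_comm, Int.gcd_comm x, mul_comm]
  exact Int.gcd_mul_right_right_of_gcd_eq_one (by
    rw [Int.gcd_comm]
    exact Int.isCoprime_iff_gcd_eq_one.mp h3)

/-- Module Fim: the inner sum. -/
theorem tFim (h1 : VsqStmt) (h2 : FphStmt) : FimStmt := by
  intro P P2 H F θ1 θ2 τ r s1 s2 a1 a2 hP hP2 hF ha1 ha2 hr1 hr2 hs1 hs2 hF1 hF2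
  have hPr2 : (1 : ℝ) ≤ P2 := by exact_mod_cast hP2
  have hPr : (1 : ℝ) ≤ P := by exact_mod_cast hP
  have hr : 1 ≤ r := by
    rcases Nat.eq_zero_or_pos r with h | h
    · rw [h, zero_mul] at hr1
      omega
    · exact h
  have hs1' : 1 ≤ s1 := by
    rcases Nat.eq_zero_or_pos s1 with h | h
    · rw [h, mul_zero] at hr1
      omega
    · exact h
  have hs2' : 1 ≤ s2 := by
    rcases Nat.eq_zero_or_pos s2 with h | h
    · rw [h, mul_zero] at hr2
      omega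
    · exact h
  have hq0 : q0 r s1 s2 = Nat.lcm (r * s1) (r * s2) := by
    unfold q0
    rw [Nat.lcm_mul_left]
  have hqsq : Squarefree (q0 r s1 s2) := by
    rw [hq0]
    exact Fim_sq _ _ hs1 hs2
  have hqpos : 1 ≤ q0 r s1 s2 := Nat.one_le_iff_ne_zero.2 hqsq.ne_zero
  have hd1 : r * s1 ∣ q0 r s1 s2 := by
    rw [hq0]
    exact Nat.dvd_lcm_left _ _
  have hd2 : r * s2 ∣ q0 r s1 s2 := by
    rw [hq0]
    exact Nat.dvd_lcm_right _ _
  have hd3 : q0 r s1 s2 ∣ (r * s1) * (r * s2) := by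
    rw [hq0]
    exact Nat.lcm_dvd (Dvd.intro _ rfl) (Dvd.intro_left _ rfl)
  have hcop : ∀ m : ℕ, (m.Coprime (r * s1) ∧ m.Coprime (r * s2)) ↔ m.Coprime (q0 r s1 s2) := by
    intro m
    constructor
    · rintro ⟨h3, h4⟩
      exact Nat.Coprime.of_dvd_right hd3 (Nat.Coprime.mul_right h3 h4)
    · intro h3
      exact ⟨Nat.Coprime.of_dvd_right hd1 h3, Nat.Coprime.of_dvd_right hd2 h3⟩
  have hFq : F.Coprime (q0 r s1 s2) := (hcop F).1 ⟨hF1, hF2⟩
  have hgcd := Fim_gcd F (q0 r s1 s2) (kM θ1 θ2 a1 a2 s1 s2) hFq hqpos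
  set q := q0 r s1 s2 with hq
  set c : ℤ := kM θ1 θ2 a1 a2 s1 s2 * (iv F q : ℤ) with hc
  set w : ℝ := (a1 : ℝ) / ((r : ℝ) * s1) - (a2 : ℝ) / ((r : ℝ) * s2) with hw
  set f : ℕ → ℂ := fun m => if m.Coprime q then ee ((c : ℝ) * (iv m q : ℝ) / q) else 0 with hf
  set g : ℕ → ℂ := fun m => ee (τ * w / m) with hg
  have hIm : ImF P F θ1 θ2 τ r s1 s2 a1 a2 = ∑ m ∈ Ico (P + 1) (3 * P + 1), f m * g m := by
    unfold ImF
    have e1 : Ioc P (3 * P) = Ico (P + 1) (3 * P + 1) := by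
      ext m
      rw [Finset.mem_Ioc, Finset.mem_Ico]
      omega
    rw [e1, Finset.sum_filter]
    apply Finset.sum_congr rfl
    intro m hm
    rw [Finset.mem_Ico] at hm
    by_cases h : m.Coprime q
    · have h3 := (hcop m).2 h
      rw [if_pos h3]
      simp only [hf, hg, if_pos h]
      exact h2 F θ1 θ2 τ r s1 s2 a1 a2 m hr hs1' hs2' (by omega) hF hF1 hF2 h3.1 h3.2
    · rw [if_neg (fun h3 => h ((hcop m).1 h3))]
      simp only [hf, if_neg h, zero_mul]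
  have hqr : (1 : ℝ) ≤ q := by exact_mod_cast hqpos
  have hlog : 0 ≤ Real.log q := Real.log_nonneg hqr
  have hP2q : (P2 : ℝ) ≤ q := by
    have h3 : r * s1 ≤ q := Nat.le_of_dvd hqpos hd1
    exact_mod_cast (hr1.le.trans h3)
  have hG1 : (1 : ℝ) ≤ (Int.gcd c q : ℝ) := by
    have : 0 < Int.gcd c q := Int.gcd_pos_of_ne_zero_right _ (by exact_mod_cast (by omega : q ≠ 0))
    exact_mod_cast this
  set B : ℝ := (q.divisors.card : ℝ) * (2 * ((P : ℝ) / P2) * (Int.gcd c q : ℝ) +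
    (q : ℝ) ^ ((1 : ℝ) / 2) * (3 + Real.log q)) with hB
  have hB0 : 0 ≤ B := by positivity
  have hpart : ∀ T, P + 1 ≤ T → T ≤ 3 * P + 1 → ‖∑ t ∈ Ico (P + 1) T, f t‖ ≤ B := by
    intro T hT1 hT2
    have h3 := h1 q (P + 1) T c hqpos hqsq hT1
    have h4 : ∑ t ∈ Ico (P + 1) T, f t =
        ∑ m ∈ (Ico (P + 1) T).filter (fun m => m.Coprime q), ee ((c : ℝ) * (iv m q : ℝ) / q) := by
      rw [Finset.sum_filter]
    rw [h4]
    refine h3.trans ?_
    rw [hB]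
    apply mul_le_mul_of_nonneg_left _ (by positivity)
    have h6 : (T : ℝ) ≤ 3 * P + 1 := by exact_mod_cast hT2
    have h7 : (T : ℝ) - ((P + 1 : ℕ) : ℝ) ≤ 2 * P := by
      push_cast
      linarith
    have h8 : ((T : ℝ) - ((P + 1 : ℕ) : ℝ)) * (Int.gcd c q : ℝ) / q ≤ 2 * ((P : ℝ) / P2) * (Int.gcd c q : ℝ) := by
      have h9 : ((T : ℝ) - ((P + 1 : ℕ) : ℝ)) * (Int.gcd c q : ℝ) / q ≤ 2 * P * (Int.gcd c q : ℝ) / q :=
        div_le_div_of_nonneg_right (mul_le_mul_of_nonneg_right h7 (by linarith)) (by linarith)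
      have h10 : 2 * P * (Int.gcd c q : ℝ) / q ≤ 2 * P * (Int.gcd c q : ℝ) / P2 :=
        div_le_div_of_nonneg_left (by positivity) (by linarith) hP2q
      have h11 : 2 * P * (Int.gcd c q : ℝ) / P2 = 2 * ((P : ℝ) / P2) * (Int.gcd c q : ℝ) := by ring
      linarith
    have h12 : ((q : ℝ) / (Int.gcd c q : ℝ)) ^ ((1 : ℝ) / 2) ≤ (q : ℝ) ^ ((1 : ℝ) / 2) :=
      Real.rpow_le_rpow (by positivity) (div_le_self (by linarith) hG1) (by norm_num)
    have h13 : ((q : ℝ) / (Int.gcd c q : ℝ)) ^ ((1 : ℝ) / 2) * (3 + Real.log q) ≤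
        (q : ℝ) ^ ((1 : ℝ) / 2) * (3 + Real.log q) :=
      mul_le_mul_of_nonneg_right h12 (by linarith)
    exact add_le_add h8 h13
  have hPsm := tPsm f g (P + 1) (3 * P + 1) B (by omega) hpart (fun t => (norm_ee _).le)
  rw [hIm]
  refine hPsm.trans ?_
  -- the variation of g
  have hw' : |w| ≤ H / P2 := by
    have h3 : ∀ a s : ℕ, a ≤ H → P2 < r * s → 0 ≤ (a : ℝ) / ((r : ℝ) * s) ∧ (a : ℝ) / ((r : ℝ) * s) ≤ H / P2 := by
      intro a s ha hs
      refine ⟨by positivity, ?_⟩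
      have h4 : (P2 : ℝ) ≤ (r : ℝ) * s := by exact_mod_cast hs.le
      have h5 : (a : ℝ) ≤ H := by exact_mod_cast ha
      exact div_le_div₀ (by positivity) h5 (by linarith) h4
    have h4 := h3 a1 s1 ha1 hr1
    have h5 := h3 a2 s2 ha2 hr2
    rw [abs_le]
    constructor <;> rw [hw] <;> linarith [h4.1, h4.2, h5.1, h5.2]
  have hvar : ∑ t ∈ Ico (P + 1) (3 * P + 1 - 1), ‖g (t + 1) - g t‖ ≤ 7 * ((H : ℝ) * |τ| / ((P : ℝ) * P2)) := by
    rw [Nat.add_sub_cancel]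
    have h3 : ∀ t ∈ Ico (P + 1) (3 * P), ‖g (t + 1) - g t‖ ≤
        (7 * |τ * w|) * (1 / (t : ℝ) - 1 / ((t : ℝ) + 1)) := by
      intro t ht
      rw [Finset.mem_Ico] at ht
      have ht0 : (0 : ℝ) < t := by
        have : 0 < t := by omega
        exact_mod_cast this
      have h4 := Fim_ee (τ * w / ((t + 1 : ℕ) : ℝ)) (τ * w / t)
      refine h4.trans (le_of_eq ?_)
      have h5 : τ * w / ((t + 1 : ℕ) : ℝ) - τ * w / t = -((τ * w) * (1 / (t : ℝ) - 1 / ((t : ℝ) + 1))) := by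
        push_cast
        ring
      have h6 : 0 ≤ 1 / (t : ℝ) - 1 / ((t : ℝ) + 1) := by
        rw [sub_nonneg]
        apply one_div_le_one_div_of_le ht0
        linarith
      rw [h5, abs_neg, abs_mul, abs_of_nonneg h6]
      ring
    refine (Finset.sum_le_sum h3).trans ?_
    rcases Nat.lt_or_ge (3 * P) (P + 1) with h | h
    · omega
    rw [Fim_tel _ _ _ h]
    have h7 : 1 / ((P + 1 : ℕ) : ℝ) - 1 / ((3 * P : ℕ) : ℝ) ≤ 1 / P := by
      have h8 : 1 / ((P + 1 : ℕ) : ℝ) ≤ 1 / P := by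
        apply one_div_le_one_div_of_le (by linarith)
        push_cast
        linarith
      have h9 : 0 ≤ 1 / ((3 * P : ℕ) : ℝ) := by positivity
      linarith
    calc 7 * |τ * w| * (1 / ((P + 1 : ℕ) : ℝ) - 1 / ((3 * P : ℕ) : ℝ)) ≤ 7 * |τ * w| * (1 / P) :=
          mul_le_mul_of_nonneg_left h7 (by positivity)
      _ ≤ 7 * (|τ| * (H / P2)) * (1 / P) := by
          apply mul_le_mul_of_nonneg_right _ (by positivity)
          rw [abs_mul]
          apply mul_le_mul_of_nonneg_left _ (by norm_num)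
          exact mul_le_mul_of_nonneg_left hw' (abs_nonneg _)
      _ = 7 * ((H : ℝ) * |τ| / ((P : ℝ) * P2)) := by
          field_simp
  have hV : 0 ≤ (H : ℝ) * |τ| / ((P : ℝ) * P2) := by positivity
  calc B * (1 + ∑ t ∈ Ico (P + 1) (3 * P + 1 - 1), ‖g (t + 1) - g t‖)
      ≤ B * (7 * (1 + (H : ℝ) * |τ| / ((P : ℝ) * P2))) := by
        apply mul_le_mul_of_nonneg_left _ hB0
        linarith
    _ = _ := by
        rw [hB, hgcd]
        ring

end Pool.Agent.Lib.TVf
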