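import Pool.Agent.Lib.TV.AllGf
import Pool.Agent.Lib.TN.AllW
import Pool.Agent.Lib.TM.Uph
import Pool.Agent.Lib.TM.Ugc
import Pool.Agent.Lib.TM.Ugd
import Pool.Agent.Lib.TM.Uge
import Pool.Agent.Lib.TM.Ugf
import Pool.Agent.Lib.TV.Vrm
import Pool.Agent.Lib.TV.Vsr
import Pool.Agent.Lib.TV.Vsq
import Pool.Agent.Lib.TV.Vdg
import Pool.Agent.Lib.TVf.Fcs
import Pool.Agent.Lib.TVf.Fph
import Pool.Agent.Lib.TVf.Fim
import Pool.Agent.Lib.TVf.Fdy
import Pool.Agent.Lib.TVf.Ftr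
import Pool.Agent.Lib.TVf.Fpg

/-!
MP_00e23e_nt, directory Lib/TVf (THEOREM V with the factor f): the trilinear form for the family, the sum of the error
terms and the off-diagonal terms, without hypotheses.
-/

namespace Pool.Agent.Lib.TVf

open Pool.Agent.Lib.TB Pool.Agent.Lib.TN Pool.Agent.Lib.TM Pool.Agent.Lib.TV

/-- the trilinear form of the family with factor f and two blocks -/
theorem tUpf : UpfStmt :=
  tFpg (tFtr tFcs (tFim (tVsq (tVsr (tKsq tWeil) tVrm)) tFph) tVdg (tUgf (tUgd tUgc) tUge)) tFdy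

/-- the sum of the error terms (factor f, two blocks) -/
theorem tEEG (δ v g ε : ℝ) (hδ : 0 ≤ δ) (hv : 0 ≤ v) (hg : 0 ≤ g) (hgd : g ≤ 2 * δ) (hε : 0 < ε)
    (hc : 2 * δ + v - g + ε ≤ 1 / 2 - 7 * δ - 2 * v - ε) :
    EEGAt δ v g (2 * δ + v - g + ε) (1 / 2 - 7 * δ - 2 * v - ε) :=
  tEEG_of tUpf δ v g ε hδ hv hg hgd hε hc

end Pool.Agent.Lib.TVf
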