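import Pool.Agent.Lib.TVf.SpecVf
import Pool.Agent.Lib.TB.Tauk

/-!
MP_00e23e_nt, Lib/TVf, module Ftr: the trilinear form of the family with the factor f and two blocks (after TM/Utr and
TN/Trf).
-/

namespace Pool.Agent.Lib.TVf

open Finset Pool.Agent.Lib.EH3 Pool.Agent.Lib.TB Pool.Agent.Lib.TN Pool.Agent.Lib.TM Pool.Agent.Lib.TV
  Pool.Agent.Results.MP_00e23e_nt

private lemma Ftr_norm_Im (P f : ℕ) (θ1 θ2 : ℤ) (τ : ℝ) (r s1 s2 h1 h2 : ℕ) :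
    ‖ImF P f θ1 θ2 τ r s1 s2 h1 h2‖ ≤ 2 * (P : ℝ) := by
  unfold ImF
  refine (norm_sum_le _ _).trans ?_
  have h : ∀ m ∈ (Ioc P (3 * P)).filter (fun m => m.Coprime (r * s1) ∧ m.Coprime (r * s2)),
      ‖eF f ((h1 : ℤ) * θ1) ((h1 : ℝ) * τ) m (r * s1) *
        (starRingEnd ℂ) (eF f ((h2 : ℤ) * θ2) ((h2 : ℝ) * τ) m (r * s2))‖ ≤ 1 := by
    intro m _
    rw [norm_mul, RCLike.norm_conj]
    unfold eF
    rw [norm_ee, norm_ee, one_mul]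
  refine (Finset.sum_le_card_nsmul _ _ _ h).trans ?_
  rw [nsmul_eq_mul, mul_one]
  have h2 : ((Ioc P (3 * P)).filter (fun m => m.Coprime (r * s1) ∧ m.Coprime (r * s2))).card ≤ 2 * P := by
    refine (Finset.card_filter_le _ _).trans ?_
    rw [Nat.card_Ioc]
    omega
  exact_mod_cast h2

/-- the arithmetic factor -/
private lemma Ftr_tau (ε : ℝ) (hε : 0 < ε) : ∃ C : ℝ, 0 ≤ C ∧ ∀ (P q : ℕ), 1 ≤ P → 1 ≤ q → q ≤ 6 * P ^ 2 →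
    (q.divisors.card : ℝ) * (3 + Real.log q) ≤ C * (P : ℝ) ^ ε := by
  obtain ⟨Ct, hCt, ht⟩ := tTauk (ε / 4) (by linarith)
  refine ⟨Ct * (3 + 4 / ε) * (6 : ℝ) ^ (ε / 2), by positivity, ?_⟩
  intro P q hP hq hqP
  have hq1 : (1 : ℝ) ≤ q := by exact_mod_cast hq
  have hP1 : (1 : ℝ) ≤ P := by exact_mod_cast hP
  have h1 := ht q hq
  have h2 : Real.log q ≤ (q : ℝ) ^ (ε / 4) / (ε / 4) := Real.log_le_rpow_div (by linarith) (by linarith)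
  have h3 : (1 : ℝ) ≤ (q : ℝ) ^ (ε / 4) := Real.one_le_rpow hq1 (by linarith)
  have h4 : 3 + Real.log q ≤ (3 + 4 / ε) * (q : ℝ) ^ (ε / 4) := by
    have : (q : ℝ) ^ (ε / 4) / (ε / 4) = 4 / ε * (q : ℝ) ^ (ε / 4) := by
      field_simp
    rw [this] at h2
    nlinarith
  have hlog : 0 ≤ Real.log q := Real.log_nonneg hq1
  calc (q.divisors.card : ℝ) * (3 + Real.log q) ≤ (Ct * (q : ℝ) ^ (ε / 4)) * ((3 + 4 / ε) * (q : ℝ) ^ (ε / 4)) :=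
        mul_le_mul h1 h4 (by linarith) (by positivity)
    _ = Ct * (3 + 4 / ε) * ((q : ℝ) ^ (ε / 4) * (q : ℝ) ^ (ε / 4)) := by ring
    _ = Ct * (3 + 4 / ε) * (q : ℝ) ^ (ε / 2) := by
        rw [← Real.rpow_add (by linarith)]
        congr 2
        ring
    _ ≤ Ct * (3 + 4 / ε) * ((6 * (P : ℝ) ^ 2) ^ (ε / 2)) := by
        refine mul_le_mul_of_nonneg_left ?_ (by positivity)
        refine Real.rpow_le_rpow (by linarith) ?_ (by linarith)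
        exact_mod_cast hqP
    _ = Ct * (3 + 4 / ε) * (6 : ℝ) ^ (ε / 2) * (P : ℝ) ^ ε := by
        rw [Real.mul_rpow (by norm_num) (by positivity), ← Real.rpow_natCast, ← Real.rpow_mul (by linarith)]
        have : ((2 : ℕ) : ℝ) * (ε / 2) = ε := by push_cast; ring
        rw [this]
        ring

/-- one term -/
private lemma Ftr_term (h2 : FimStmt) (ε : ℝ) {C1 : ℝ}
    (hC1 : ∀ (P q : ℕ), 1 ≤ P → 1 ≤ q → q ≤ 6 * P ^ 2 → (q.divisors.card : ℝ) * (3 + Real.log q) ≤ C1 * (P : ℝ) ^ ε)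
    (P P2 S H f : ℕ) (θ1 θ2 : ℤ) (τ τ0 : ℝ) (u1 u2 : ℂ) (hP : 1 ≤ P) (hP2 : 1 ≤ P2) (hf : 1 ≤ f) (hSP : S ≤ P2)
    (hτ : |τ| ≤ τ0) (r s1 s2 g1 g2 : ℕ) (hu1 : ‖u1‖ ≤ 1) (hu2 : ‖u2‖ ≤ 1)
    (hβ1 : u1 ≠ 0 → P2 < r * s1 ∧ r * s1 ≤ 3 * P2 ∧ Squarefree (r * s1) ∧ f.Coprime (r * s1))
    (hβ2 : u2 ≠ 0 → P2 < r * s2 ∧ r * s2 ≤ 3 * P2 ∧ Squarefree (r * s2) ∧ f.Coprime (r * s2))
    (hs2 : s2 ≤ 2 * S) (hg1 : g1 ≤ H) (hg2 : g2 ≤ H) :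
    ‖u1‖ * ‖u2‖ * ‖ImF P f θ1 θ2 τ r s1 s2 g1 g2‖ ≤
      2 * (P : ℝ) * (‖u1‖ * ‖u2‖ * (if kM θ1 θ2 g1 g2 s1 s2 = 0 then (1 : ℝ) else 0)) +
      14 * (1 + (H : ℝ) * τ0 / ((P : ℝ) * P2)) * (C1 * (P2 : ℝ) ^ ε) * ((P : ℝ) / P2) *
        (if kM θ1 θ2 g1 g2 s1 s2 ≠ 0 then (Int.gcd (kM θ1 θ2 g1 g2 s1 s2) (q0 r s1 s2) : ℝ) else 0) +
      7 * (1 + (H : ℝ) * τ0 / ((P : ℝ) * P2)) * (C1 * (P2 : ℝ) ^ ε) * (6 * (P2 : ℝ) * S) ^ ((1 : ℝ) / 2) *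
        (‖u1‖ * ‖u2‖) := by
  have hτ0 : 0 ≤ τ0 := (abs_nonneg τ).trans hτ
  have hC1' : 0 ≤ C1 * (P2 : ℝ) ^ ε := by
    refine le_trans ?_ (hC1 P2 1 hP2 le_rfl (by nlinarith))
    have : (0 : ℝ) ≤ Real.log (1 : ℕ) := by simp
    positivity
  have hV : (0 : ℝ) ≤ 1 + (H : ℝ) * τ0 / ((P : ℝ) * P2) := by positivity
  have e2 : (0 : ℝ) ≤ (if kM θ1 θ2 g1 g2 s1 s2 ≠ 0 then
      (Int.gcd (kM θ1 θ2 g1 g2 s1 s2) (q0 r s1 s2) : ℝ) else 0) := by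
    split_ifs
    · positivity
    · exact le_rfl
  by_cases hc1 : u1 = 0
  · rw [hc1, norm_zero, zero_mul, zero_mul, zero_mul, mul_zero, zero_add, mul_zero, add_zero]
    positivity
  by_cases hc2 : u2 = 0
  · rw [hc2, norm_zero, mul_zero, zero_mul, zero_mul, mul_zero, zero_add, mul_zero, add_zero]
    positivity
  obtain ⟨a1, a2, a3, a4⟩ := hβ1 hc1
  obtain ⟨b1, b2, b3, b4⟩ := hβ2 hc2
  have hu0 : 0 ≤ ‖u1‖ * ‖u2‖ := by positivity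
  have hu12 : ‖u1‖ * ‖u2‖ ≤ 1 := by
    calc ‖u1‖ * ‖u2‖ ≤ 1 * 1 := mul_le_mul hu1 hu2 (norm_nonneg _) zero_le_one
      _ = 1 := one_mul 1
  have e3 : 0 ≤ 7 * (1 + (H : ℝ) * τ0 / ((P : ℝ) * P2)) * (C1 * (P2 : ℝ) ^ ε) * (6 * (P2 : ℝ) * S) ^ ((1 : ℝ) / 2) *
      (‖u1‖ * ‖u2‖) := by positivity
  by_cases hk : kM θ1 θ2 g1 g2 s1 s2 = 0
  · have h5 : ‖u1‖ * ‖u2‖ * ‖ImF P f θ1 θ2 τ r s1 s2 g1 g2‖ ≤ ‖u1‖ * ‖u2‖ * (2 * (P : ℝ)) :=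
      mul_le_mul_of_nonneg_left (Ftr_norm_Im P f θ1 θ2 τ r s1 s2 g1 g2) hu0
    rw [if_pos hk, if_neg (by simpa using hk), mul_one, mul_zero, add_zero]
    linarith
  · rw [if_neg hk, if_pos hk, mul_zero, mul_zero, zero_add]
    have hr : 1 ≤ r := by
      rcases Nat.eq_zero_or_pos r with h | h
      · subst h; simp at a1
      · exact h
    have hs1' : 1 ≤ s1 := by
      rcases Nat.eq_zero_or_pos s1 with h | h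
      · subst h; simp at a1
      · exact h
    have hs2' : 1 ≤ s2 := by
      rcases Nat.eq_zero_or_pos s2 with h | h
      · subst h; simp at b1
      · exact h
    have hq1 : 1 ≤ q0 r s1 s2 := Nat.mul_pos hr (Nat.lcm_pos hs1' hs2')
    have hq6 : q0 r s1 s2 ≤ 6 * P2 * S := by
      unfold q0
      have e1 : Nat.lcm s1 s2 ≤ s1 * s2 := Nat.div_le_self _ _
      calc r * Nat.lcm s1 s2 ≤ r * (s1 * s2) := Nat.mul_le_mul_left _ e1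
        _ = (r * s1) * s2 := by ring
        _ ≤ (3 * P2) * (2 * S) := Nat.mul_le_mul a2 hs2
        _ = 6 * P2 * S := by ring
    have hq6' : q0 r s1 s2 ≤ 6 * P2 ^ 2 := by
      refine hq6.trans ?_
      have : P2 * S ≤ P2 * P2 := Nat.mul_le_mul_left _ hSP
      nlinarith
    have hm := h2 P P2 H f θ1 θ2 τ r s1 s2 g1 g2 hP hP2 hf hg1 hg2 a1 b1 a3 b3 a4 b4
    have ht := hC1 P2 (q0 r s1 s2) hP2 hq1 hq6'
    obtain ⟨G, hG⟩ : ∃ G : ℝ, G = (Int.gcd (kM θ1 θ2 g1 g2 s1 s2) (q0 r s1 s2) : ℝ) := ⟨_, rfl⟩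
    rw [← hG] at hm ⊢
    have hG0 : 0 ≤ G := by rw [hG]; positivity
    have hqr : ((q0 r s1 s2 : ℕ) : ℝ) ^ ((1 : ℝ) / 2) ≤ (6 * (P2 : ℝ) * S) ^ ((1 : ℝ) / 2) := by
      refine Real.rpow_le_rpow (Nat.cast_nonneg _) ?_ (by norm_num)
      exact_mod_cast hq6
    have hlog : 0 ≤ Real.log (q0 r s1 s2 : ℕ) := Real.log_nonneg (by exact_mod_cast hq1)
    obtain ⟨t, htd⟩ : ∃ t : ℝ, t = ((q0 r s1 s2).divisors.card : ℝ) := ⟨_, rfl⟩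
    obtain ⟨l, hl⟩ : ∃ l : ℝ, l = Real.log (q0 r s1 s2 : ℕ) := ⟨_, rfl⟩
    obtain ⟨y, hy⟩ : ∃ y : ℝ, y = ((q0 r s1 s2 : ℕ) : ℝ) ^ ((1 : ℝ) / 2) := ⟨_, rfl⟩
    rw [← htd, ← hl] at ht
    rw [← htd, ← hl, ← hy] at hm
    rw [← hl] at hlog
    rw [← hy] at hqr
    have ht0 : 0 ≤ t := by rw [htd]; positivity
    have hy0 : 0 ≤ y := by rw [hy]; positivity
    have hPP : 0 ≤ (P : ℝ) / P2 := by positivity
    obtain ⟨D, hD⟩ : ∃ D : ℝ, D = C1 * (P2 : ℝ) ^ ε := ⟨_, rfl⟩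
    rw [← hD] at ht hC1' e3 ⊢
    have key : t * (2 * ((P : ℝ) / P2) * G + y * (3 + l)) ≤
        D * (2 * ((P : ℝ) / P2) * G + (6 * (P2 : ℝ) * S) ^ ((1 : ℝ) / 2)) := by
      have k1 : t ≤ D := by
        have : t * 1 ≤ t * (3 + l) := mul_le_mul_of_nonneg_left (by linarith) ht0
        linarith
      have k2 : t * (2 * ((P : ℝ) / P2) * G) ≤ D * (2 * ((P : ℝ) / P2) * G) :=
        mul_le_mul_of_nonneg_right k1 (by positivity)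
      have k3 : t * (y * (3 + l)) ≤ D * (6 * (P2 : ℝ) * S) ^ ((1 : ℝ) / 2) := by
        calc t * (y * (3 + l)) = (t * (3 + l)) * y := by ring
          _ ≤ D * (6 * (P2 : ℝ) * S) ^ ((1 : ℝ) / 2) := mul_le_mul ht hqr hy0 hC1'
      calc t * (2 * ((P : ℝ) / P2) * G + y * (3 + l)) = t * (2 * ((P : ℝ) / P2) * G) + t * (y * (3 + l)) := by ring
        _ ≤ D * (2 * ((P : ℝ) / P2) * G) + D * (6 * (P2 : ℝ) * S) ^ ((1 : ℝ) / 2) := add_le_add k2 k3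
        _ = _ := by ring
    have hVV : 1 + (H : ℝ) * |τ| / ((P : ℝ) * P2) ≤ 1 + (H : ℝ) * τ0 / ((P : ℝ) * P2) := by
      have h5 : (H : ℝ) * |τ| ≤ (H : ℝ) * τ0 := mul_le_mul_of_nonneg_left hτ (Nat.cast_nonneg _)
      have h6 : (H : ℝ) * |τ| / ((P : ℝ) * P2) ≤ (H : ℝ) * τ0 / ((P : ℝ) * P2) :=
        div_le_div_of_nonneg_right h5 (by positivity)
      linarith
    obtain ⟨V, hVd⟩ : ∃ V : ℝ, V = 1 + (H : ℝ) * τ0 / ((P : ℝ) * P2) := ⟨_, rfl⟩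
    rw [← hVd] at hVV hV e3 ⊢
    have hmain : ‖ImF P f θ1 θ2 τ r s1 s2 g1 g2‖ ≤ 7 * V *
        (D * (2 * ((P : ℝ) / P2) * G + (6 * (P2 : ℝ) * S) ^ ((1 : ℝ) / 2))) := by
      refine hm.trans ?_
      refine mul_le_mul (by linarith) key ?_ (by linarith)
      have : 0 ≤ y * (3 + l) := mul_nonneg hy0 (by linarith)
      exact mul_nonneg ht0 (by positivity)
    have hD1 : 0 ≤ 14 * V * D * ((P : ℝ) / P2) * G := by positivity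
    calc ‖u1‖ * ‖u2‖ * ‖ImF P f θ1 θ2 τ r s1 s2 g1 g2‖
        ≤ ‖u1‖ * ‖u2‖ * (7 * V * (D * (2 * ((P : ℝ) / P2) * G + (6 * (P2 : ℝ) * S) ^ ((1 : ℝ) / 2)))) :=
          mul_le_mul_of_nonneg_left hmain hu0
      _ = (‖u1‖ * ‖u2‖) * (14 * V * D * ((P : ℝ) / P2) * G) +
          7 * V * D * (6 * (P2 : ℝ) * S) ^ ((1 : ℝ) / 2) * (‖u1‖ * ‖u2‖) := by ring
      _ ≤ 1 * (14 * V * D * ((P : ℝ) / P2) * G) +
          7 * V * D * (6 * (P2 : ℝ) * S) ^ ((1 : ℝ) / 2) * (‖u1‖ * ‖u2‖) :=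
          add_le_add (mul_le_mul_of_nonneg_right hu12 hD1) le_rfl
      _ = _ := by ring

/-- the third part: the sum without condition -/
private lemma Ftr_s3 (S H : ℕ) (K : ℝ) (B : Finset ℤ) (x : ℤ → ℕ → ℝ) (hx : ∀ b s, 0 ≤ x b s)
    (hK : ∀ s, ∑ b ∈ B, x b s ≤ K) :
    ∑ b1 ∈ B, ∑ b2 ∈ B, ∑ s1 ∈ Ico S (2 * S), ∑ s2 ∈ Ico S (2 * S), ∑ _h1 ∈ Icc 1 H, ∑ _h2 ∈ Icc 1 H,
      (x b1 s1 * x b2 s2) ≤ (S : ℝ) ^ 2 * (H : ℝ) ^ 2 * K ^ 2 := by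
  have hz : ∑ b ∈ B, ∑ s ∈ Ico S (2 * S), x b s ≤ S * K := by
    rw [Finset.sum_comm]
    refine (Finset.sum_le_sum fun s _ => hK s).trans (le_of_eq ?_)
    rw [Finset.sum_const, Nat.card_Ico, nsmul_eq_mul]
    have : 2 * S - S = S := by omega
    rw [this]
  have hz0 : 0 ≤ ∑ b ∈ B, ∑ s ∈ Ico S (2 * S), x b s :=
    Finset.sum_nonneg fun b _ => Finset.sum_nonneg fun s _ => hx b s
  have e1 : ∑ b1 ∈ B, ∑ b2 ∈ B, ∑ s1 ∈ Ico S (2 * S), ∑ s2 ∈ Ico S (2 * S), ∑ _h1 ∈ Icc 1 H, ∑ _h2 ∈ Icc 1 H,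
      (x b1 s1 * x b2 s2) = (H : ℝ) ^ 2 * ((∑ b ∈ B, ∑ s ∈ Ico S (2 * S), x b s) *
        (∑ b ∈ B, ∑ s ∈ Ico S (2 * S), x b s)) := by
    rw [Finset.sum_mul_sum, Finset.mul_sum]
    refine Finset.sum_congr rfl fun b1 _ => ?_
    rw [Finset.mul_sum]
    refine Finset.sum_congr rfl fun b2 _ => ?_
    rw [Finset.sum_mul_sum, Finset.mul_sum]
    refine Finset.sum_congr rfl fun s1 _ => ?_
    rw [Finset.mul_sum]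
    refine Finset.sum_congr rfl fun s2 _ => ?_
    rw [Finset.sum_const, Finset.sum_const, Nat.card_Icc, Nat.add_sub_cancel, nsmul_eq_mul, nsmul_eq_mul]
    ring
  rw [e1]
  calc (H : ℝ) ^ 2 * ((∑ b ∈ B, ∑ s ∈ Ico S (2 * S), x b s) * (∑ b ∈ B, ∑ s ∈ Ico S (2 * S), x b s))
      ≤ (H : ℝ) ^ 2 * ((S * K) * (S * K)) :=
        mul_le_mul_of_nonneg_left (mul_le_mul hz hz hz0 (hz0.trans hz)) (by positivity)
    _ = _ := by ring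

private lemma Ftr_b1 {P P2 R C2 S H E F K W V : ℝ} (hP : 1 ≤ P) (hP2 : 1 ≤ P2) (hS : 1 ≤ S) (hH : 1 ≤ H)
    (hC2 : 0 ≤ C2) (hR0 : 0 ≤ R) (hR : R ≤ 3 * P2 / S) (hF : 0 ≤ F) (hFE : F ≤ E) (hE : 1 ≤ E) (hW : 0 ≤ W)
    (hV : 1 ≤ V) :
    K * (2 * P * R) * (2 * P * (R * (C2 * F * (W * H * (S * K))))) ≤
      36 * C2 * E ^ 2 * V * (K ^ 2 * W * (P ^ 2 * P2 ^ 2 * H / S)) := by
  have hR2 : R ^ 2 ≤ (3 * P2 / S) ^ 2 := pow_le_pow_left₀ hR0 hR 2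
  have hS0 : S ≠ 0 := by linarith
  have hE2 : E ≤ E ^ 2 * V := by
    have : E ≤ E ^ 2 := by nlinarith
    nlinarith [sq_nonneg E]
  calc K * (2 * P * R) * (2 * P * (R * (C2 * F * (W * H * (S * K)))))
      = (4 * P ^ 2 * C2 * (S * H) * (K ^ 2 * W)) * (R ^ 2 * F) := by ring
    _ ≤ (4 * P ^ 2 * C2 * (S * H) * (K ^ 2 * W)) * ((3 * P2 / S) ^ 2 * (E ^ 2 * V)) := by
        refine mul_le_mul_of_nonneg_left ?_ (by positivity)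
        exact mul_le_mul hR2 (hFE.trans hE2) hF (by positivity)
    _ = _ := by
        field_simp
        ring

private lemma Ftr_b2 {P P2 R C1 C3 S H E F G V K W : ℝ} (hP : 1 ≤ P) (hP2 : 1 ≤ P2) (hS : 1 ≤ S) (hH : 1 ≤ H)
    (hC1 : 0 ≤ C1) (hC3 : 0 ≤ C3) (hR0 : 0 ≤ R) (hV : 0 ≤ V) (hK : 0 ≤ K) (hW : 0 ≤ W)
    (hR : R ≤ 3 * P2 / S) (hF : 0 ≤ F) (hFE : F ≤ E) (hG : 0 ≤ G) (hGE : G ≤ E) :
    K * (2 * P * R) * (14 * V * (C1 * F) * (P / P2) * (W ^ 3 * (C3 * G * (R * S ^ 2 * H ^ 2)))) ≤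
      252 * C1 * C3 * E ^ 2 * V * (K * W ^ 3 * (P ^ 2 * P2 * H ^ 2)) := by
  have hR2 : R ^ 2 ≤ (3 * P2 / S) ^ 2 := pow_le_pow_left₀ hR0 hR 2
  have hS0 : S ≠ 0 := by linarith
  have hP20 : P2 ≠ 0 := by linarith
  have hE : 0 ≤ E := hF.trans hFE
  calc K * (2 * P * R) * (14 * V * (C1 * F) * (P / P2) * (W ^ 3 * (C3 * G * (R * S ^ 2 * H ^ 2))))
      = (28 * P * (P / P2) * V * C1 * C3 * S ^ 2 * H ^ 2 * (K * W ^ 3)) * (R ^ 2 * (F * G)) := by ring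
    _ ≤ (28 * P * (P / P2) * V * C1 * C3 * S ^ 2 * H ^ 2 * (K * W ^ 3)) * ((3 * P2 / S) ^ 2 * (E * E)) := by
        refine mul_le_mul_of_nonneg_left ?_ (by positivity)
        refine mul_le_mul hR2 ?_ (by positivity) (by positivity)
        exact mul_le_mul hFE hGE hG hE
    _ = _ := by
        field_simp
        ring

private lemma Ftr_b3 {P P2 R C1 S H E F V K W p s q Y : ℝ} (hP : 1 ≤ P) (hP2 : 1 ≤ P2) (hS : 1 ≤ S) (hH : 1 ≤ H)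
    (hC1 : 0 ≤ C1) (hR0 : 0 ≤ R) (hV : 0 ≤ V) (hq : 0 ≤ q) (hK : 0 ≤ K) (hW : 0 ≤ W)
    (hR : R ≤ 3 * P2 / S) (hF : 0 ≤ F) (hFE : F ≤ E) (hE : 1 ≤ E) (hp : 0 ≤ p) (hs : 0 ≤ s)
    (hY : P * (P2 ^ 2 * p) * s = Y) :
    K * (2 * P * R) * (7 * V * (C1 * F) * (q * (p * s)) * (W * (R * (S ^ 2 * H ^ 2 * K ^ 2)))) ≤
      126 * q * C1 * E ^ 2 * V * (K ^ 3 * W * (H ^ 2 * Y)) := by
  have hR2 : R ^ 2 ≤ (3 * P2 / S) ^ 2 := pow_le_pow_left₀ hR0 hR 2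
  have hS0 : S ≠ 0 := by linarith
  have hE2 : F ≤ E ^ 2 := by
    have : E ≤ E ^ 2 := by nlinarith
    linarith
  calc K * (2 * P * R) * (7 * V * (C1 * F) * (q * (p * s)) * (W * (R * (S ^ 2 * H ^ 2 * K ^ 2))))
      = (14 * P * V * C1 * (q * (p * s)) * S ^ 2 * H ^ 2 * (K ^ 3 * W)) * (R ^ 2 * F) := by ring
    _ ≤ (14 * P * V * C1 * (q * (p * s)) * S ^ 2 * H ^ 2 * (K ^ 3 * W)) * ((3 * P2 / S) ^ 2 * E ^ 2) := by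
        refine mul_le_mul_of_nonneg_left ?_ (by positivity)
        exact mul_le_mul hR2 hE2 hF (by positivity)
    _ = 126 * q * C1 * E ^ 2 * V * (K ^ 3 * W * (H ^ 2 * (P * (P2 ^ 2 * p) * s))) := by
        field_simp
        ring
    _ = _ := by rw [hY]

private lemma Ftr_th {γ : ℕ} {e : ℤ} {X : ℝ} {A : Finset ℤ} {B : ℤ → Finset ℤ} {θ : ℤ → ℤ → ℤ} (hγ : 1 ≤ γ)
    (h : IsTh γ e X A B θ) {a b : ℤ} (ha : a ∈ A) (hb : b ∈ B a) : θ a b ≠ 0 ∧ |(θ a b : ℝ)| ≤ X := by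
  obtain ⟨he, _, h3⟩ := h
  obtain ⟨h4, h5, h6⟩ := h3 a ha b hb
  have he0 : e ≠ 0 := by rcases he with h | h <;> rw [h] <;> norm_num
  have heabs : |(e : ℝ)| = 1 := by rcases he with h | h <;> rw [h] <;> norm_num
  refine ⟨fun h0 => ?_, ?_⟩
  · rw [h0, mul_zero] at h4
    rcases mul_eq_zero.1 h4.symm with h | h
    · exact he0 h
    · exact h5 (sub_eq_zero.1 h)
  · have h7 : ((γ : ℕ) : ℝ) * |(θ a b : ℝ)| = |((b - a : ℤ) : ℝ)| := by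
      have h8 : ((γ : ℕ) : ℝ) * (θ a b : ℝ) = (e : ℝ) * ((b - a : ℤ) : ℝ) := by exact_mod_cast h4
      have h9 := congrArg abs h8
      rw [abs_mul, abs_mul, heabs, one_mul, Nat.abs_cast] at h9
      exact h9
    have hγ1 : (1 : ℝ) ≤ γ := by exact_mod_cast hγ
    have h8 : |(θ a b : ℝ)| ≤ ((γ : ℕ) : ℝ) * |(θ a b : ℝ)| := le_mul_of_one_le_left (abs_nonneg _) hγ1
    linarith

theorem tFtr (h1 : FcsStmt) (h2 : FimStmt) (h3 : VdgStmt) (h4 : UgfStmt) : FtrStmt := by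
  intro ε hε
  have hε2 : 0 < ε / 2 := by linarith
  obtain ⟨C1, hC10, hC1⟩ := Ftr_tau (ε / 2) hε2
  obtain ⟨C2, hC20, hC2⟩ := h3 (ε / 2) hε2
  obtain ⟨C3, hC30, hC3⟩ := h4 (ε / 2) hε2
  refine ⟨36 * C2 + 252 * C1 * C3 + 126 * (6 : ℝ) ^ ((1 : ℝ) / 2) * C1, by positivity, ?_⟩
  intro P P2 S H f γ K W X τ0 e A B lam α β θ τ hP hP2 hP2P hS hH hf hγ hSP hlam hα hαK hβ1 hβK hβ hA hth hX hτ hτ0
  have hP1 : (1 : ℝ) ≤ P := by exact_mod_cast hP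
  have hP21 : (1 : ℝ) ≤ P2 := by exact_mod_cast hP2
  have hP2Pr : (P2 : ℝ) ≤ P := by exact_mod_cast hP2P
  have hS1 : (1 : ℝ) ≤ S := by exact_mod_cast hS
  have hH1 : (1 : ℝ) ≤ H := by exact_mod_cast hH
  have hSPr : (S : ℝ) ≤ P2 := by exact_mod_cast hSP
  have hK0 : 0 ≤ K := (Finset.sum_nonneg fun a _ => norm_nonneg _).trans (hαK 0)
  have hW0 : 0 ≤ W := (Nat.cast_nonneg _).trans hA
  have hBA := hth.2.1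
  obtain ⟨V, hV⟩ : ∃ V : ℝ, V = 1 + (H : ℝ) * τ0 / ((P : ℝ) * P2) := ⟨_, rfl⟩
  have hV1 : 1 ≤ V := by
    rw [hV]
    have : 0 ≤ (H : ℝ) * τ0 / ((P : ℝ) * P2) := by positivity
    linarith
  obtain ⟨N0, hN0⟩ : ∃ N0 : ℝ, N0 = (P : ℝ) * H * X := ⟨_, rfl⟩
  have hPH : (1 : ℝ) ≤ (P : ℝ) * H := by nlinarith
  have hN1 : 1 ≤ N0 := by
    rw [hN0]
    nlinarith
  obtain ⟨R, hR⟩ : ∃ R : ℕ, R = 3 * P2 / S := ⟨_, rfl⟩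
  have hRr : (R : ℝ) ≤ 3 * P2 / S := by
    rw [hR]
    have := @Nat.cast_div_le ℝ _ _ _ (3 * P2) S
    refine this.trans (le_of_eq ?_)
    push_cast
    rfl
  have hPe : (P2 : ℝ) ^ (ε / 2) ≤ N0 ^ (ε / 2) := by
    refine Real.rpow_le_rpow (by linarith) ?_ hε2.le
    rw [hN0]
    have : (1 : ℝ) ≤ (H : ℝ) * X := by nlinarith
    calc (P2 : ℝ) ≤ P * 1 := by linarith
      _ ≤ P * (H * X) := mul_le_mul_of_nonneg_left this (by linarith)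
      _ = (P : ℝ) * H * X := by ring
  have hTHe : (X * H * S) ^ (ε / 2) ≤ N0 ^ (ε / 2) := by
    refine Real.rpow_le_rpow (by positivity) ?_ hε2.le
    rw [hN0]
    have : X * H * S ≤ X * H * P := mul_le_mul_of_nonneg_left (hSPr.trans hP2Pr) (by positivity)
    calc X * H * S ≤ X * H * P := this
      _ = _ := by ring
  have hNe1 : 1 ≤ N0 ^ (ε / 2) := Real.one_le_rpow hN1 hε2.le
  have hE2 : (N0 ^ (ε / 2)) ^ 2 = N0 ^ ε := by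
    rw [← Real.rpow_natCast, ← Real.rpow_mul (by linarith)]
    congr 1
    push_cast
    ring
  obtain ⟨D1, hD1⟩ : ∃ D1 : ℝ, D1 = 14 * V * (C1 * (P2 : ℝ) ^ (ε / 2)) * ((P : ℝ) / P2) := ⟨_, rfl⟩
  obtain ⟨D2, hD2⟩ : ∃ D2 : ℝ, D2 = 7 * V * (C1 * (P2 : ℝ) ^ (ε / 2)) * (6 * (P2 : ℝ) * S) ^ ((1 : ℝ) / 2) :=
    ⟨_, rfl⟩
  have hD10 : 0 ≤ D1 := by rw [hD1]; positivity
  have hD20 : 0 ≤ D2 := by rw [hD2]; positivity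
  have hR0 : (0 : ℝ) ≤ R := Nat.cast_nonneg _
  have hcs := h1 P P2 S H f K A B lam α β θ τ hlam hα hαK
  rw [← hR] at hcs
  -- the three sums
  have hall : ∑ a ∈ A, ∑ r ∈ Icc 1 R, ∑ b1 ∈ B a, ∑ b2 ∈ B a, ∑ s1 ∈ Ico S (2 * S), ∑ s2 ∈ Ico S (2 * S),
      ∑ h1 ∈ Icc 1 H, ∑ h2 ∈ Icc 1 H,
        ‖β b1 r s1‖ * ‖β b2 r s2‖ * ‖ImF P f (θ a b1) (θ a b2) (τ a) r s1 s2 h1 h2‖ ≤
      2 * (P : ℝ) * (∑ a ∈ A, ∑ r ∈ Icc 1 R, ∑ b1 ∈ B a, ∑ b2 ∈ B a, ∑ s1 ∈ Ico S (2 * S), ∑ s2 ∈ Ico S (2 * S),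
        ∑ h1 ∈ Icc 1 H, ∑ h2 ∈ Icc 1 H,
          (‖β b1 r s1‖ * ‖β b2 r s2‖ * (if kM (θ a b1) (θ a b2) h1 h2 s1 s2 = 0 then (1 : ℝ) else 0))) +
      D1 * (∑ a ∈ A, ∑ r ∈ Icc 1 R, ∑ b1 ∈ B a, ∑ b2 ∈ B a, ∑ s1 ∈ Ico S (2 * S), ∑ s2 ∈ Ico S (2 * S),
        ∑ h1 ∈ Icc 1 H, ∑ h2 ∈ Icc 1 H,
          (if kM (θ a b1) (θ a b2) h1 h2 s1 s2 ≠ 0 then
            (Int.gcd (kM (θ a b1) (θ a b2) h1 h2 s1 s2) (q0 r s1 s2) : ℝ) else 0)) +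
      D2 * (∑ a ∈ A, ∑ r ∈ Icc 1 R, ∑ b1 ∈ B a, ∑ b2 ∈ B a, ∑ s1 ∈ Ico S (2 * S), ∑ s2 ∈ Ico S (2 * S),
        ∑ _h1 ∈ Icc 1 H, ∑ _h2 ∈ Icc 1 H, (‖β b1 r s1‖ * ‖β b2 r s2‖)) := by
    have e1 : ∑ a ∈ A, ∑ r ∈ Icc 1 R, ∑ b1 ∈ B a, ∑ b2 ∈ B a, ∑ s1 ∈ Ico S (2 * S), ∑ s2 ∈ Ico S (2 * S),
      ∑ h1 ∈ Icc 1 H, ∑ h2 ∈ Icc 1 H,
        ‖β b1 r s1‖ * ‖β b2 r s2‖ * ‖ImF P f (θ a b1) (θ a b2) (τ a) r s1 s2 h1 h2‖ ≤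
      ∑ a ∈ A, ∑ r ∈ Icc 1 R, ∑ b1 ∈ B a, ∑ b2 ∈ B a, ∑ s1 ∈ Ico S (2 * S), ∑ s2 ∈ Ico S (2 * S),
        ∑ h1 ∈ Icc 1 H, ∑ h2 ∈ Icc 1 H,
          (2 * (P : ℝ) * (‖β b1 r s1‖ * ‖β b2 r s2‖ *
              (if kM (θ a b1) (θ a b2) h1 h2 s1 s2 = 0 then (1 : ℝ) else 0)) +
            D1 * (if kM (θ a b1) (θ a b2) h1 h2 s1 s2 ≠ 0 then
              (Int.gcd (kM (θ a b1) (θ a b2) h1 h2 s1 s2) (q0 r s1 s2) : ℝ) else 0) +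
            D2 * (‖β b1 r s1‖ * ‖β b2 r s2‖)) := by
      refine sum_le_sum fun a ha => sum_le_sum fun r _ => sum_le_sum fun b1 _ => sum_le_sum fun b2 _ =>
        sum_le_sum fun s1 _ => sum_le_sum fun s2 hs2 => sum_le_sum fun g1 hg1 => sum_le_sum fun g2 hg2 => ?_
      have h5 := Ftr_term h2 (ε / 2) hC1 P P2 S H f (θ a b1) (θ a b2) (τ a) τ0 (β b1 r s1) (β b2 r s2) hP hP2 hf hSP
        (hτ a ha) r s1 s2 g1 g2 (hβ1 _ _ _) (hβ1 _ _ _) (hβ b1 r s1) (hβ b2 r s2) (mem_Ico.1 hs2).2.le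
        (mem_Icc.1 hg1).2 (mem_Icc.1 hg2).2
      rw [← hV, ← hD1, ← hD2] at h5
      exact h5
    refine e1.trans (le_of_eq ?_)
    simp only [mul_sum, sum_add_distrib]
  -- first sum
  have hT1 : ∑ a ∈ A, ∑ r ∈ Icc 1 R, ∑ b1 ∈ B a, ∑ b2 ∈ B a, ∑ s1 ∈ Ico S (2 * S), ∑ s2 ∈ Ico S (2 * S),
        ∑ h1 ∈ Icc 1 H, ∑ h2 ∈ Icc 1 H,
          (‖β b1 r s1‖ * ‖β b2 r s2‖ * (if kM (θ a b1) (θ a b2) h1 h2 s1 s2 = 0 then (1 : ℝ) else 0)) ≤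
      R * (C2 * (X * H * S) ^ (ε / 2) * (W * H * (S * K))) := by
    rw [Finset.sum_comm]
    have e1 : ∀ r ∈ Icc 1 R, ∑ a ∈ A, ∑ b1 ∈ B a, ∑ b2 ∈ B a, ∑ s1 ∈ Ico S (2 * S), ∑ s2 ∈ Ico S (2 * S),
        ∑ h1 ∈ Icc 1 H, ∑ h2 ∈ Icc 1 H,
          (‖β b1 r s1‖ * ‖β b2 r s2‖ * (if kM (θ a b1) (θ a b2) h1 h2 s1 s2 = 0 then (1 : ℝ) else 0)) ≤
        C2 * (X * H * S) ^ (ε / 2) * (W * H * (S * K)) := by
      intro r _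
      refine (hC2 S H γ X e A B θ (fun b s => ‖β b r s‖) hS hH hγ hX hth (fun _ _ => norm_nonneg _)).trans ?_
      refine mul_le_mul_of_nonneg_left ?_ (by positivity)
      refine mul_le_mul (mul_le_mul_of_nonneg_right hA (by linarith)) ?_
        (Finset.sum_nonneg fun _ _ => Finset.sum_nonneg fun _ _ => by positivity) (by positivity)
      rw [Finset.sum_comm]
      have e2 : ∀ s ∈ Ico S (2 * S), ∑ b ∈ A, ‖β b r s‖ ^ 2 ≤ K := by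
        intro s _
        refine (Finset.sum_le_sum fun b _ => ?_).trans (hβK r s)
        have := hβ1 b r s
        nlinarith [norm_nonneg (β b r s)]
      refine (Finset.sum_le_sum e2).trans (le_of_eq ?_)
      rw [Finset.sum_const, Nat.card_Ico, nsmul_eq_mul]
      have : 2 * S - S = S := by omega
      rw [this]
    refine (Finset.sum_le_card_nsmul _ _ _ e1).trans (le_of_eq ?_)
    rw [Nat.card_Icc, Nat.add_sub_cancel, nsmul_eq_mul]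
  -- second sum
  have hT2 : ∑ a ∈ A, ∑ r ∈ Icc 1 R, ∑ b1 ∈ B a, ∑ b2 ∈ B a, ∑ s1 ∈ Ico S (2 * S), ∑ s2 ∈ Ico S (2 * S),
        ∑ h1 ∈ Icc 1 H, ∑ h2 ∈ Icc 1 H,
          (if kM (θ a b1) (θ a b2) h1 h2 s1 s2 ≠ 0 then
            (Int.gcd (kM (θ a b1) (θ a b2) h1 h2 s1 s2) (q0 r s1 s2) : ℝ) else 0) ≤
      W ^ 3 * (C3 * (X * H * S) ^ (ε / 2) * ((R : ℝ) * S ^ 2 * H ^ 2)) := by
    obtain ⟨Z, hZ⟩ : ∃ Z : ℝ, Z = C3 * (X * H * S) ^ (ε / 2) * ((R : ℝ) * S ^ 2 * H ^ 2) := ⟨_, rfl⟩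
    have hZ0 : 0 ≤ Z := by rw [hZ]; positivity
    rw [← hZ]
    have e1 : ∀ a ∈ A, ∑ r ∈ Icc 1 R, ∑ b1 ∈ B a, ∑ b2 ∈ B a, ∑ s1 ∈ Ico S (2 * S), ∑ s2 ∈ Ico S (2 * S),
        ∑ h1 ∈ Icc 1 H, ∑ h2 ∈ Icc 1 H,
          (if kM (θ a b1) (θ a b2) h1 h2 s1 s2 ≠ 0 then
            (Int.gcd (kM (θ a b1) (θ a b2) h1 h2 s1 s2) (q0 r s1 s2) : ℝ) else 0) ≤ W * (W * Z) := by
      intro a ha
      have hcard : ((B a).card : ℝ) ≤ W := by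
        refine le_trans ?_ hA
        exact_mod_cast Finset.card_le_card (hBA a ha)
      rw [Finset.sum_comm]
      have e2 : ∀ b1 ∈ B a, ∑ r ∈ Icc 1 R, ∑ b2 ∈ B a, ∑ s1 ∈ Ico S (2 * S), ∑ s2 ∈ Ico S (2 * S),
        ∑ h1 ∈ Icc 1 H, ∑ h2 ∈ Icc 1 H,
          (if kM (θ a b1) (θ a b2) h1 h2 s1 s2 ≠ 0 then
            (Int.gcd (kM (θ a b1) (θ a b2) h1 h2 s1 s2) (q0 r s1 s2) : ℝ) else 0) ≤ W * Z := by
        intro b1 hb1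
        rw [Finset.sum_comm]
        have e3 : ∀ b2 ∈ B a, ∑ r ∈ Icc 1 R, ∑ s1 ∈ Ico S (2 * S), ∑ s2 ∈ Ico S (2 * S),
          ∑ h1 ∈ Icc 1 H, ∑ h2 ∈ Icc 1 H,
            (if kM (θ a b1) (θ a b2) h1 h2 s1 s2 ≠ 0 then
              (Int.gcd (kM (θ a b1) (θ a b2) h1 h2 s1 s2) (q0 r s1 s2) : ℝ) else 0) ≤ Z := by
          intro b2 hb2
          have t1 := Ftr_th hγ hth ha hb1
          have t2 := Ftr_th hγ hth ha hb2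
          rw [hZ]
          exact hC3 R S H X (θ a b1) (θ a b2) hS hH hX t1.1 t2.1 t1.2 t2.2
        refine (Finset.sum_le_card_nsmul _ _ _ e3).trans ?_
        rw [nsmul_eq_mul]
        exact mul_le_mul_of_nonneg_right hcard hZ0
      refine (Finset.sum_le_card_nsmul _ _ _ e2).trans ?_
      rw [nsmul_eq_mul]
      exact mul_le_mul_of_nonneg_right hcard (by positivity)
    refine (Finset.sum_le_card_nsmul _ _ _ e1).trans ?_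
    rw [nsmul_eq_mul]
    calc (A.card : ℝ) * (W * (W * Z)) ≤ W * (W * (W * Z)) := mul_le_mul_of_nonneg_right hA (by positivity)
      _ = W ^ 3 * Z := by ring
  -- third sum
  have hT3 : ∑ a ∈ A, ∑ r ∈ Icc 1 R, ∑ b1 ∈ B a, ∑ b2 ∈ B a, ∑ s1 ∈ Ico S (2 * S), ∑ s2 ∈ Ico S (2 * S),
        ∑ _h1 ∈ Icc 1 H, ∑ _h2 ∈ Icc 1 H, (‖β b1 r s1‖ * ‖β b2 r s2‖) ≤
      W * (R * ((S : ℝ) ^ 2 * (H : ℝ) ^ 2 * K ^ 2)) := by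
    have e1 : ∀ a ∈ A, ∑ r ∈ Icc 1 R, ∑ b1 ∈ B a, ∑ b2 ∈ B a, ∑ s1 ∈ Ico S (2 * S), ∑ s2 ∈ Ico S (2 * S),
        ∑ _h1 ∈ Icc 1 H, ∑ _h2 ∈ Icc 1 H, (‖β b1 r s1‖ * ‖β b2 r s2‖) ≤
        R * ((S : ℝ) ^ 2 * (H : ℝ) ^ 2 * K ^ 2) := by
      intro a ha
      refine (Finset.sum_le_card_nsmul _ _ _ fun r _ => Ftr_s3 S H K (B a) (fun b s => ‖β b r s‖)
        (fun _ _ => norm_nonneg _) fun s => ?_).trans (le_of_eq ?_)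
      · exact (Finset.sum_le_sum_of_subset_of_nonneg (hBA a ha) (fun _ _ _ => norm_nonneg _)).trans (hβK r s)
      · rw [Nat.card_Icc, Nat.add_sub_cancel, nsmul_eq_mul]
    refine (Finset.sum_le_card_nsmul _ _ _ e1).trans ?_
    rw [nsmul_eq_mul]
    exact mul_le_mul_of_nonneg_right hA (by positivity)
  have hsq : (6 * (P2 : ℝ) * S) ^ ((1 : ℝ) / 2) = (6 : ℝ) ^ ((1 : ℝ) / 2) * ((P2 : ℝ) ^ ((1 : ℝ) / 2) *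
      (S : ℝ) ^ ((1 : ℝ) / 2)) := by
    rw [Real.mul_rpow (by positivity) (by positivity), Real.mul_rpow (by positivity) (by positivity), mul_assoc]
  have hP52 : (P : ℝ) * ((P2 : ℝ) ^ 2 * (P2 : ℝ) ^ ((1 : ℝ) / 2)) * (S : ℝ) ^ ((1 : ℝ) / 2) =
      P * (P2 : ℝ) ^ ((5 : ℝ) / 2) * (S : ℝ) ^ ((1 : ℝ) / 2) := by
    rw [← Real.rpow_natCast (P2 : ℝ) 2, ← Real.rpow_add (by linarith : (0 : ℝ) < P2)]
    norm_num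
  have b1 := Ftr_b1 (K := K) (W := W) (C2 := C2) hP1 hP21 hS1 hH1 hC20 hR0 hRr
    (by positivity : (0 : ℝ) ≤ (X * H * S) ^ (ε / 2)) hTHe hNe1 hW0 hV1
  have b2 := Ftr_b2 (V := V) (K := K) (W := W) hP1 hP21 hS1 hH1 hC10 hC30 hR0 (by linarith : (0 : ℝ) ≤ V) hK0 hW0
    hRr (by positivity : (0 : ℝ) ≤ (P2 : ℝ) ^ (ε / 2)) hPe (by positivity : (0 : ℝ) ≤ (X * H * S) ^ (ε / 2)) hTHe
  have b3 := Ftr_b3 (V := V) (K := K) (W := W) hP1 hP21 hS1 hH1 hC10 hR0 (by linarith : (0 : ℝ) ≤ V)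
    (by positivity : (0 : ℝ) ≤ (6 : ℝ) ^ ((1 : ℝ) / 2)) hK0 hW0 hRr
    (by positivity : (0 : ℝ) ≤ (P2 : ℝ) ^ (ε / 2)) hPe hNe1
    (by positivity : (0 : ℝ) ≤ (P2 : ℝ) ^ ((1 : ℝ) / 2)) (by positivity : (0 : ℝ) ≤ (S : ℝ) ^ ((1 : ℝ) / 2)) hP52
  rw [← hsq] at b3
  rw [← hD1] at b2
  rw [← hD2] at b3
  have hfin := hcs.trans (mul_le_mul_of_nonneg_left (hall.trans (add_le_add (add_le_add
    (mul_le_mul_of_nonneg_left hT1 (by positivity : (0 : ℝ) ≤ 2 * (P : ℝ))) (mul_le_mul_of_nonneg_left hT2 hD10))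
    (mul_le_mul_of_nonneg_left hT3 hD20))) (by positivity : (0 : ℝ) ≤ K * (2 * (P : ℝ) * (R : ℝ))))
  rw [hE2] at b1 b2 b3
  rw [← hN0, ← hV]
  obtain ⟨x, hx⟩ : ∃ x : ℝ, x = K ^ 2 * W * ((P : ℝ) ^ 2 * (P2 : ℝ) ^ 2 * H / S) := ⟨_, rfl⟩
  obtain ⟨y, hy⟩ : ∃ y : ℝ, y = K * W ^ 3 * ((P : ℝ) ^ 2 * P2 * (H : ℝ) ^ 2) := ⟨_, rfl⟩
  obtain ⟨z, hz⟩ : ∃ z : ℝ, z = K ^ 3 * W * ((H : ℝ) ^ 2 * (P * (P2 : ℝ) ^ ((5 : ℝ) / 2) *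
    (S : ℝ) ^ ((1 : ℝ) / 2))) := ⟨_, rfl⟩
  have hx0 : 0 ≤ x := by rw [hx]; positivity
  have hy0 : 0 ≤ y := by rw [hy]; positivity
  have hz0 : 0 ≤ z := by rw [hz]; positivity
  rw [← hx] at b1 ⊢
  rw [← hy] at b2 ⊢
  rw [← hz] at b3 ⊢
  obtain ⟨M, hM⟩ : ∃ M : ℝ, M = N0 ^ ε * V := ⟨_, rfl⟩
  have hM0 : 0 ≤ M := by rw [hM]; positivity
  obtain ⟨k1, hk1⟩ : ∃ k : ℝ, k = 36 * C2 := ⟨_, rfl⟩
  obtain ⟨k2, hk2⟩ : ∃ k : ℝ, k = 252 * C1 * C3 := ⟨_, rfl⟩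
  obtain ⟨k3, hk3⟩ : ∃ k : ℝ, k = 126 * (6 : ℝ) ^ ((1 : ℝ) / 2) * C1 := ⟨_, rfl⟩
  have hk10 : 0 ≤ k1 := by rw [hk1]; positivity
  have hk20 : 0 ≤ k2 := by rw [hk2]; positivity
  have hk30 : 0 ≤ k3 := by rw [hk3]; positivity
  have c1 : 36 * C2 * N0 ^ ε * V * x ≤ k1 * M * (x + y + z) := by
    have : 36 * C2 * N0 ^ ε * V * x = k1 * M * x := by rw [hk1, hM]; ring
    rw [this]
    exact mul_le_mul_of_nonneg_left (by linarith) (by positivity)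
  have c2 : 252 * C1 * C3 * N0 ^ ε * V * y ≤ k2 * M * (x + y + z) := by
    have : 252 * C1 * C3 * N0 ^ ε * V * y = k2 * M * y := by rw [hk2, hM]; ring
    rw [this]
    exact mul_le_mul_of_nonneg_left (by linarith) (by positivity)
  have c3 : 126 * (6 : ℝ) ^ ((1 : ℝ) / 2) * C1 * N0 ^ ε * V * z ≤ k3 * M * (x + y + z) := by
    have : 126 * (6 : ℝ) ^ ((1 : ℝ) / 2) * C1 * N0 ^ ε * V * z = k3 * M * z := by rw [hk3, hM]; ring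
    rw [this]
    exact mul_le_mul_of_nonneg_left (by linarith) (by positivity)
  have c4 : (36 * C2 + 252 * C1 * C3 + 126 * (6 : ℝ) ^ ((1 : ℝ) / 2) * C1) * N0 ^ ε * V * (x + y + z) =
      k1 * M * (x + y + z) + k2 * M * (x + y + z) + k3 * M * (x + y + z) := by
    rw [hk1, hk2, hk3, hM]
    ring
  rw [c4]
  refine hfin.trans ?_
  rw [mul_add, mul_add]
  exact add_le_add (add_le_add (b1.trans c1) (b2.trans c2)) (b3.trans c3)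

end Pool.Agent.Lib.TVf
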