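import Pool.Agent.Lib.TVf.AllVf
import Pool.Agent.Lib.TV.Vpn

/-!
MP_00e23e_nt, directory Lib/TVf: (OFF) for the whole family, congruence f | n and blocks Q, Q2, without hypotheses.
-/

namespace Pool.Agent.Lib.TVf

open Pool.Agent.Lib.TB Pool.Agent.Lib.TN Pool.Agent.Lib.TM Pool.Agent.Lib.TV

/-- (OFF), factor f, two blocks -/
theorem tOffG (δ v g ε : ℝ) (hδ : 0 ≤ δ) (hv : 0 ≤ v) (hg : 0 ≤ g) (hgd : g ≤ 2 * δ) (hε : 0 < ε)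
    (hc : 2 * δ + v - g + ε ≤ 1 / 2 - 7 * δ - 2 * v - ε) :
    OffGAt δ v g ε (2 * δ + v - g + ε) (1 / 2 - 7 * δ - 2 * v - ε) :=
  tOffGAt tWb (tWx (tWf tWb)) hδ hv hg hε (by linarith) (tEEG δ v g ε hδ hv hg hgd hε hc)

end Pool.Agent.Lib.TVf
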