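import Pool.Agent.Lib.TV.SpecV
import Pool.Agent.Lib.TV.StmVf
import Pool.Agent.Lib.TV.StmUf
import Pool.Agent.Lib.TN.SpecTf

/-!
MP_00e23e_nt, directory Lib/TVf (helper19): part T of THEOREM V with the factor f and two blocks Q2 ≤ Q. Everything is an
adaptation of Lib/TM and Lib/TV (f = 1, Q2 = Q) with the phase eF f of TN/StmF in place of eB. Final statement UpfStmt (TV/StmUf.lean).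
-/

namespace Pool.Agent.Lib.TVf

open Finset Pool.Agent.Lib.EH3 Pool.Agent.Lib.TB Pool.Agent.Lib.TN Pool.Agent.Lib.TM Pool.Agent.Lib.TV
  Pool.Agent.Results.MP_00e23e_nt

/-- the trilinear form for one pair (a, b); as TM.TfI -/
noncomputable def TfIf (P P2 S H f : ℕ) (lam : ℕ → ℂ) (α : ℕ → ℂ) (β : ℕ → ℕ → ℂ) (θ : ℤ) (τ : ℝ) : ℂ :=
  ∑ h ∈ Icc 1 H, lam h * ∑ m ∈ Ioc P (3 * P), ∑ r ∈ Icc 1 (3 * P2 / S),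
      ∑ s ∈ (Ico S (2 * S)).filter (fun s => m.Coprime (r * s)),
        α m * β r s * eF f ((h : ℤ) * θ) ((h : ℝ) * τ) m (r * s)

/-- the trilinear form for the family; as TM.TfM -/
noncomputable def TfMf (P P2 S H f : ℕ) (A : Finset ℤ) (B : ℤ → Finset ℤ) (lam : ℤ → ℕ → ℂ) (α : ℤ → ℕ → ℂ) (β : ℤ → ℕ → ℕ → ℂ)
    (θ : ℤ → ℤ → ℤ) (τ : ℤ → ℝ) : ℂ :=
  ∑ a ∈ A, ∑ b ∈ B a, TfIf P P2 S H f (lam a) (α a) (β b) (θ a b) (τ a)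

/-- the inner sum over m after Cauchy's inequality; as TM.ImM -/
noncomputable def ImF (P f : ℕ) (θ1 θ2 : ℤ) (τ : ℝ) (r s1 s2 h1 h2 : ℕ) : ℂ :=
  ∑ m ∈ (Ioc P (3 * P)).filter (fun m => m.Coprime (r * s1) ∧ m.Coprime (r * s2)),
    eF f ((h1 : ℤ) * θ1) ((h1 : ℝ) * τ) m (r * s1) * (starRingEnd ℂ) (eF f ((h2 : ℤ) * θ2) ((h2 : ℝ) * τ) m (r * s2))

/-- Module Fcs (theorem tFcs; copy of TM/Ucs). Uses: nothing. -/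
def FcsStmt : Prop := ∀ (P P2 S H f : ℕ) (K : ℝ) (A : Finset ℤ) (B : ℤ → Finset ℤ) (lam : ℤ → ℕ → ℂ) (α : ℤ → ℕ → ℂ)
    (β : ℤ → ℕ → ℕ → ℂ) (θ : ℤ → ℤ → ℤ) (τ : ℤ → ℝ), (∀ a h, ‖lam a h‖ ≤ 1) → (∀ a m, ‖α a m‖ ≤ 1) → (∀ m, ∑ a ∈ A, ‖α a m‖ ≤ K) →
  ‖TfMf P P2 S H f A B lam α β θ τ‖ ^ 2 ≤ K * (2 * (P : ℝ) * ((3 * P2 / S : ℕ) : ℝ)) *
    ∑ a ∈ A, ∑ r ∈ Icc 1 (3 * P2 / S), ∑ b1 ∈ B a, ∑ b2 ∈ B a, ∑ s1 ∈ Ico S (2 * S), ∑ s2 ∈ Ico S (2 * S),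
      ∑ h1 ∈ Icc 1 H, ∑ h2 ∈ Icc 1 H,
        ‖β b1 r s1‖ * ‖β b2 r s2‖ * ‖ImF P f (θ a b1) (θ a b2) (τ a) r s1 s2 h1 h2‖

/-- Module Fph (theorem tFph; copy of TN/Tpf with two frequencies, see TM/Uph). Uses: nothing. -/
def FphStmt : Prop := ∀ (f : ℕ) (θ1 θ2 : ℤ) (τ : ℝ) (r s1 s2 h1 h2 m : ℕ), 1 ≤ r → 1 ≤ s1 → 1 ≤ s2 → 1 ≤ m → 1 ≤ f →
  f.Coprime (r * s1) → f.Coprime (r * s2) → m.Coprime (r * s1) → m.Coprime (r * s2) →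
  eF f ((h1 : ℤ) * θ1) ((h1 : ℝ) * τ) m (r * s1) *
      (starRingEnd ℂ) (eF f ((h2 : ℤ) * θ2) ((h2 : ℝ) * τ) m (r * s2)) =
    ee (((kM θ1 θ2 h1 h2 s1 s2 * (iv f (q0 r s1 s2) : ℤ) : ℤ) : ℝ) * (iv m (q0 r s1 s2) : ℝ) /
        ((q0 r s1 s2 : ℕ) : ℝ)) *
      ee (τ * ((h1 : ℝ) / ((r : ℝ) * s1) - (h2 : ℝ) / ((r : ℝ) * s2)) / m)

/-- Module Fim (theorem tFim; copy of TV/Vim and TN/Tif). Uses: VsqStmt, FphStmt. (Import also TB/Psm.lean: tPsm.)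
Proof. c = kM iv f q0, gcd(c, q0) = gcd(kM, q0) because iv f q0 is coprime to q0. VsqStmt for Ico (P+1) T: length ≤ 2P, q0 ≥ r s1 > P2, so the bound is
τ(q0) (2P g/P2 + q0^(1/2) (3 + log q0)). |w| ≤ H/P2, total variation of the smooth phase ≤ 2π |τ| (H/P2) (1/P), 1 + 2π ≤ 7... -/
def FimStmt : Prop := ∀ (P P2 H f : ℕ) (θ1 θ2 : ℤ) (τ : ℝ) (r s1 s2 h1 h2 : ℕ), 1 ≤ P → 1 ≤ P2 → 1 ≤ f → h1 ≤ H →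
  h2 ≤ H → P2 < r * s1 → P2 < r * s2 → Squarefree (r * s1) → Squarefree (r * s2) → f.Coprime (r * s1) →
  f.Coprime (r * s2) →
  ‖ImF P f θ1 θ2 τ r s1 s2 h1 h2‖ ≤ 7 * (1 + (H : ℝ) * |τ| / ((P : ℝ) * P2)) *
    (((q0 r s1 s2).divisors.card : ℝ) * (2 * ((P : ℝ) / P2) * (Int.gcd (kM θ1 θ2 h1 h2 s1 s2) (q0 r s1 s2) : ℝ) +
      ((q0 r s1 s2 : ℕ) : ℝ) ^ ((1 : ℝ) / 2) * (3 + Real.log (q0 r s1 s2 : ℕ))))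

/-- Module Ftr (theorem tFtr; copy of TV/Vtr). Uses: FcsStmt, FimStmt, VdgStmt, UgfStmt.
Proof. R = 3 P2/S. (1) 2P R C (X H S)^ε' W H S K; (2) W^3 14 V C (P/P2) C3 R S^2 H^2; (3) 7 V C (6 P2 S)^(1/2) W R S^2 H^2 K^2. Times K 2P R:
K^2 W P^2 P2^2 H/S, K W^3 P^2 P2 H^2, K^3 W H^2 P P2^(5/2) S^(1/2). -/
def FtrStmt : Prop := ∀ ε : ℝ, 0 < ε → ∃ C : ℝ, 0 ≤ C ∧ ∀ (P P2 S H f γ : ℕ) (K W X τ0 : ℝ) (e : ℤ) (A : Finset ℤ)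
    (B : ℤ → Finset ℤ) (lam : ℤ → ℕ → ℂ) (α : ℤ → ℕ → ℂ) (β : ℤ → ℕ → ℕ → ℂ) (θ : ℤ → ℤ → ℤ) (τ : ℤ → ℝ),
  1 ≤ P → 1 ≤ P2 → P2 ≤ P → 1 ≤ S → 1 ≤ H → 1 ≤ f → 1 ≤ γ → S ≤ P2 → (∀ a h, ‖lam a h‖ ≤ 1) → (∀ a m, ‖α a m‖ ≤ 1) →
  (∀ m, ∑ a ∈ A, ‖α a m‖ ≤ K) →
  (∀ b r s, ‖β b r s‖ ≤ 1) → (∀ r s, ∑ b ∈ A, ‖β b r s‖ ≤ K) →
  (∀ b r s, β b r s ≠ 0 → P2 < r * s ∧ r * s ≤ 3 * P2 ∧ Squarefree (r * s) ∧ f.Coprime (r * s)) →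
  (A.card : ℝ) ≤ W → IsTh γ e X A B θ → 1 ≤ X → (∀ a ∈ A, |τ a| ≤ τ0) → 0 ≤ τ0 →
  ‖TfMf P P2 S H f A B lam α β θ τ‖ ^ 2 ≤ C * ((P : ℝ) * H * X) ^ ε * (1 + (H : ℝ) * τ0 / ((P : ℝ) * P2)) *
    (K ^ 2 * W * ((P : ℝ) ^ 2 * (P2 : ℝ) ^ 2 * H / S) + K * W ^ 3 * ((P : ℝ) ^ 2 * P2 * (H : ℝ) ^ 2) +
      K ^ 3 * W * ((H : ℝ) ^ 2 * (P * (P2 : ℝ) ^ ((5 : ℝ) / 2) * (S : ℝ) ^ ((1 : ℝ) / 2))))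

/-- the sum for the pairs (g m, g n), with the weighted sum over h -/
noncomputable def Pfl (Q Q2 g H f : ℕ) (lam : ℕ → ℂ) (c c' : ℕ → ℝ) (θ : ℤ) (τ : ℝ) : ℂ :=
  ∑ h ∈ Icc 1 H, lam h * pg2 Q Q2 g (fun m n => ((c (g * m) * c' (g * n) : ℝ) : ℂ) * (1 / ((m : ℂ) * n)) *
    eF f ((h : ℤ) * θ) ((h : ℝ) * τ) m n)

/-- Module Fdy (theorem tFdy; copy of TM/Udy and TN/Pdf). Uses: nothing. -/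
def FdyStmt : Prop := ∀ (Q Q2 g H J f : ℕ) (lam : ℕ → ℂ) (c c' : ℕ → ℝ) (σ : ℕ → ℕ) (θ : ℤ) (τ : ℝ), 1 ≤ g → g ≤ Q →
  g ≤ Q2 → 3 * (Q2 / g) < 2 ^ J → (∀ n, 1 ≤ n → c' (g * n) ≠ 0 → σ n ∣ n ∧ 1 ≤ σ n) →
  (((Q / g : ℕ) : ℂ)) * (((Q2 / g : ℕ) : ℂ)) * Pfl Q Q2 g H f lam c c' θ τ =
    ∑ j ∈ range J, TfIf (Q / g) (Q2 / g) (2 ^ j) H f lam (al Q g c) (be Q2 g c' σ) θ τ

/-- Module Fpg (theorem tFpg; copy of TV/Vpg). Uses: FtrStmt, FdyStmt. FINAL STATEMENT of part T with the factor f: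
UpfStmt of TV/StmUf.lean (helper95). -/
def UpfStmt' : Prop := UpfStmt

end Pool.Agent.Lib.TVf
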